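import Mathlib

set_option autoImplicit false

/-!
For a set `X` of letters, `Gam X` is the group of the pairs of words of equal height.  For an
abelian group structure on `X`, the group `LamG X` is a twisted version of it, acting simply
transitively on the same Cayley graph.
-/

namespace Pool.Agent.KS6_1.RD

section base

variable {X : Type}

/-- height -/
def htHom (X : Type) : FreeGroup X →* Multiplicative ℤ :=
  FreeGroup.lift fun _ => Multiplicative.ofAdd 1

/-- height -/
def ht (p : FreeGroup X) : ℤ := (htHom X p).toAdd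

@[simp] lemma ht_one : ht (1 : FreeGroup X) = 0 := by simp [ht]

@[simp] lemma ht_mul (p q : FreeGroup X) : ht (p * q) = ht p + ht q := by simp [ht]

@[simp] lemma ht_inv (p : FreeGroup X) : ht p⁻¹ = - ht p := by simp [ht]

@[simp] lemma ht_of (i : X) : ht (FreeGroup.of i) = 1 := by simp [ht, htHom]

lemma ht_zpow (p : FreeGroup X) (n : ℤ) : ht (p ^ n) = n * ht p := by
  simp [ht]

/-- induction principle on the free group -/
lemma F_induction {C : FreeGroup X → Prop} (h1 : C 1) (hof : ∀ i, C (FreeGroup.of i))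
    (hinv : ∀ p, C p → C p⁻¹) (hmul : ∀ p q, C p → C q → C (p * q)) (p : FreeGroup X) : C p := by
  induction p using FreeGroup.induction_on with
  | C1 => exact h1
  | of i => exact hof i
  | inv_of i h => exact hinv _ h
  | mul p q hp hq => exact hmul p q hp hq

/-- the base group: pairs of words with equal heights -/
def Gam (X : Type) : Subgroup (FreeGroup X × FreeGroup X) where
  carrier := {x | ht x.1 = ht x.2}
  mul_mem' := by
    intro a b ha hb
    simp only [Set.mem_ofPred_eq, Prod.fst_mul, Prod.snd_mul, ht_mul] at *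
    rw [ha, hb]
  one_mem' := by simp
  inv_mem' := by
    intro a ha
    simp only [Set.mem_ofPred_eq, Prod.fst_inv, Prod.snd_inv, ht_inv] at *
    rw [ha]

/-- height on `Gam` -/
def hg (x : Gam X) : ℤ := ht x.1.1

lemma hg_eq (x : Gam X) : ht x.1.2 = hg x := x.2.symm

@[simp] lemma hg_mul (x y : Gam X) : hg (x * y) = hg x + hg y := by simp [hg]
@[simp] lemma hg_one : hg (1 : Gam X) = 0 := by simp [hg]
@[simp] lemma hg_inv (x : Gam X) : hg x⁻¹ = - hg x := by simp [hg]

/-- generators of the base group -/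
def sgen (i j : X) : Gam X := ⟨(FreeGroup.of i, FreeGroup.of j), by
  show ht _ = ht _
  simp⟩

@[simp] lemma hg_sgen (i j : X) : hg (sgen i j) = 1 := by simp [hg, sgen]

/-- the finite symmetric generating set of the base group -/
def S0 (X : Type) : Set (Gam X) := {x | ∃ i j, x = sgen i j ∨ x = (sgen i j)⁻¹}

lemma S0_finite [Finite X] : (S0 X).Finite := by
  have h : S0 X ⊆ (Set.range (fun p : X × X => sgen p.1 p.2)) ∪
      (Set.range (fun p : X × X => (sgen p.1 p.2)⁻¹)) := by
    rintro x ⟨i, j, h | h⟩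
    · left; exact ⟨(i, j), h.symm⟩
    · right; exact ⟨(i, j), h.symm⟩
  exact Set.Finite.subset ((Set.finite_range _).union (Set.finite_range _)) h

lemma S0_inv {x : Gam X} (hx : x ∈ S0 X) : x⁻¹ ∈ S0 X := by
  obtain ⟨i, j, h | h⟩ := hx
  · exact ⟨i, j, Or.inr (by rw [h])⟩
  · exact ⟨i, j, Or.inl (by rw [h, inv_inv])⟩

/-- first coordinate section -/
def f1 (o : X) : FreeGroup X →* Gam X := FreeGroup.lift fun i => sgen i o
/-- second coordinate section -/
def f2 (o : X) : FreeGroup X →* Gam X := FreeGroup.lift fun i => sgen o i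

lemma f1_fst (o : X) (p : FreeGroup X) : (f1 o p).1.1 = p := by
  refine F_induction (C := fun p => (f1 o p).1.1 = p) ?_ ?_ ?_ ?_ p
  · simp
  · intro i; simp [f1, sgen]
  · intro p hp; simp [hp]
  · intro p q hp hq; simp [hp, hq]

lemma f2_snd (o : X) (p : FreeGroup X) : (f2 o p).1.2 = p := by
  refine F_induction (C := fun p => (f2 o p).1.2 = p) ?_ ?_ ?_ ?_ p
  · simp
  · intro i; simp [f2, sgen]
  · intro p hp; simp [hp]
  · intro p q hp hq; simp [hp, hq]

lemma f1_snd (o : X) (p : FreeGroup X) : (f1 o p).1.2 = FreeGroup.of o ^ (ht p) := by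
  refine F_induction (C := fun p => (f1 o p).1.2 = FreeGroup.of o ^ (ht p)) ?_ ?_ ?_ ?_ p
  · simp
  · intro i; simp [f1, sgen]
  · intro p hp; simp [hp]
  · intro p q hp hq; simp [hp, hq, zpow_add]

lemma f2_fst (o : X) (p : FreeGroup X) : (f2 o p).1.1 = FreeGroup.of o ^ (ht p) := by
  refine F_induction (C := fun p => (f2 o p).1.1 = FreeGroup.of o ^ (ht p)) ?_ ?_ ?_ ?_ p
  · simp
  · intro i; simp [f2, sgen]
  · intro p hp; simp [hp]
  · intro p q hp hq; simp [hp, hq, zpow_add]

lemma gen_decomp (o : X) (x : Gam X) :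
    x = f1 o x.1.1 * (f1 o (FreeGroup.of o ^ (hg x)))⁻¹ * f2 o x.1.2 := by
  apply Subtype.ext
  apply Prod.ext
  · simp only [Subgroup.coe_mul, Subgroup.coe_inv, Prod.fst_mul, Prod.fst_inv, f1_fst, f2_fst,
      hg_eq]
    group
  · simp only [Subgroup.coe_mul, Subgroup.coe_inv, Prod.snd_mul, Prod.snd_inv, f1_snd, f2_snd,
      ht_zpow, ht_of, mul_one]
    simp only [hg]
    group

lemma f1_mem (o : X) (p : FreeGroup X) : f1 o p ∈ Subgroup.closure (S0 X) := by
  refine F_induction (C := fun p => f1 o p ∈ Subgroup.closure (S0 X)) ?_ ?_ ?_ ?_ p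
  · simp
  · intro i
    apply Subgroup.subset_closure
    exact ⟨i, o, Or.inl (by simp [f1])⟩
  · intro p hp; rw [map_inv]; exact inv_mem hp
  · intro p q hp hq; rw [map_mul]; exact mul_mem hp hq

lemma f2_mem (o : X) (p : FreeGroup X) : f2 o p ∈ Subgroup.closure (S0 X) := by
  refine F_induction (C := fun p => f2 o p ∈ Subgroup.closure (S0 X)) ?_ ?_ ?_ ?_ p
  · simp
  · intro i
    apply Subgroup.subset_closure
    exact ⟨o, i, Or.inl (by simp [f2])⟩
  · intro p hp; rw [map_inv]; exact inv_mem hp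
  · intro p q hp hq; rw [map_mul]; exact mul_mem hp hq

lemma S0_gen [Nonempty X] : Subgroup.closure (S0 X) = ⊤ := by
  obtain ⟨o⟩ := ‹Nonempty X›
  rw [eq_top_iff]
  intro x _
  rw [gen_decomp o x]
  exact mul_mem (mul_mem (f1_mem _ _) (inv_mem (f1_mem _ _))) (f2_mem _ _)

/-- being a product of exactly `n` elements of `S` -/
def IsProd {G : Type} [Group G] (S : Set G) (n : ℕ) (g : G) : Prop :=
  ∃ l : List G, l.length = n ∧ (∀ a ∈ l, a ∈ S) ∧ l.prod = g

lemma IsProd.mul_right {G : Type} [Group G] {S : Set G} {n : ℕ} {g a : G}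
    (h : IsProd S n g) (ha : a ∈ S) : IsProd S (n + 1) (g * a) := by
  obtain ⟨l, h1, h2, h3⟩ := h
  refine ⟨l ++ [a], by simp [h1], ?_, by simp [h3]⟩
  intro b hb
  rw [List.mem_append, List.mem_singleton] at hb
  rcases hb with hb | rfl
  · exact h2 b hb
  · exact ha

lemma IsProd.mul {G : Type} [Group G] {S : Set G} {n m : ℕ} {g a : G}
    (h : IsProd S n g) (ha : IsProd S m a) : IsProd S (n + m) (g * a) := by
  obtain ⟨l, h1, h2, h3⟩ := h
  obtain ⟨l', h1', h2', h3'⟩ := ha
  refine ⟨l ++ l', by simp [h1, h1'], ?_, by simp [h3, h3']⟩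
  intro b hb
  rw [List.mem_append] at hb
  rcases hb with hb | hb
  · exact h2 b hb
  · exact h2' b hb

lemma exists_isProd {G : Type} [Group G] {S : Set G} (hinv : ∀ a ∈ S, a⁻¹ ∈ S)
    (hgen : Subgroup.closure S = ⊤) (g : G) : ∃ n, IsProd S n g := by
  have hg : g ∈ Subgroup.closure S := by rw [hgen]; trivial
  induction hg using Subgroup.closure_induction with
  | mem x hx => exact ⟨1, [x], rfl, by simpa using hx, by simp⟩
  | one => exact ⟨0, [], rfl, by simp, by simp⟩
  | mul x y _ _ hx hy =>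
    obtain ⟨n, hn⟩ := hx
    obtain ⟨m, hm⟩ := hy
    exact ⟨n + m, hn.mul hm⟩
  | inv x _ hx =>
    obtain ⟨n, l, h1, h2, h3⟩ := hx
    refine ⟨n, (l.map (·⁻¹)).reverse, by simp [h1], ?_, ?_⟩
    · intro a ha
      simp only [List.mem_reverse, List.mem_map] at ha
      obtain ⟨b, hb, rfl⟩ := ha
      exact hinv b (h2 b hb)
    · rw [← List.prod_inv_reverse, h3]

lemma IsProd_mem_closure {G : Type} [Group G] {S : Set G} {n : ℕ} {g : G}
    (h : IsProd S n g) : g ∈ Subgroup.closure S := by
  obtain ⟨l, _, h2, h3⟩ := h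
  rw [← h3]
  exact list_prod_mem fun a ha => Subgroup.subset_closure (h2 a ha)

lemma IsProd.inv {G : Type} [Group G] {S : Set G} (hinv : ∀ a ∈ S, a⁻¹ ∈ S) {n : ℕ} {g : G}
    (h : IsProd S n g) : IsProd S n g⁻¹ := by
  obtain ⟨l, h1, h2, h3⟩ := h
  refine ⟨(l.map (·⁻¹)).reverse, by simp [h1], ?_, ?_⟩
  · intro a ha
    simp only [List.mem_reverse, List.mem_map] at ha
    obtain ⟨b, hb, rfl⟩ := ha
    exact hinv b (h2 b hb)
  · rw [← List.prod_inv_reverse, h3]

end base

section twist

variable {X : Type} [AddCommGroup X]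

/-- two-sided sequences -/
abbrev K (X : Type) : Type := ℤ → X

/-- shift -/
def sh (n : ℤ) (k : K X) : K X := fun h => k (h + n)

@[simp] lemma sh_apply (n : ℤ) (k : K X) (h : ℤ) : sh n k h = k (h + n) := rfl

@[simp] lemma sh_zero (k : K X) : sh 0 k = k := by ext h; simp

lemma sh_sh (n m : ℤ) (k : K X) : sh n (sh m k) = sh (n + m) k := by
  funext h; simp only [sh_apply]; congr 1; ring

lemma sh_add (n : ℤ) (k l : K X) : sh n (k + l) = sh n k + sh n l := by
  funext h; simp

lemma sh_neg (n : ℤ) (k : K X) : sh n (-k) = - sh n k := by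
  funext h; simp

lemma sh_sub (n : ℤ) (k l : K X) : sh n (k - l) = sh n k - sh n l := by
  funext h; simp

@[simp] lemma sh_zero' (n : ℤ) : sh n (0 : K X) = 0 := by
  funext h; simp

/-- the shift action of `ℤ` on `K → F` -/
def phi (X : Type) [AddCommGroup X] : Multiplicative ℤ →* MulAut (K X → FreeGroup X) where
  toFun n :=
    { toFun := fun u k => u (sh n.toAdd k)
      invFun := fun u k => u (sh (-n.toAdd) k)
      left_inv := fun u => by
        funext k; simp [sh_sh]
      right_inv := fun u => by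
        funext k; simp [sh_sh]
      map_mul' := fun u v => by
        funext k; simp }
  map_one' := by
    ext u k; simp
  map_mul' n m := by
    ext u k
    simp only [MulEquiv.coe_mk, Equiv.coe_fn_mk, MulAut.mul_apply, toAdd_mul, sh_sh]
    rw [add_comm]

@[simp] lemma phi_apply (n : Multiplicative ℤ) (u : K X → FreeGroup X) (k : K X) :
    phi X n u k = u (sh n.toAdd k) := rfl

/-- the universal map encoding height and the action -/
def Theta : FreeGroup X →* (K X → FreeGroup X) ⋊[phi X] Multiplicative ℤ :=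
  FreeGroup.lift fun i => ⟨fun k => FreeGroup.of (i + k 1), Multiplicative.ofAdd 1⟩

lemma Theta_right (p : FreeGroup X) : (Theta p).right = Multiplicative.ofAdd (ht p) := by
  refine F_induction (C := fun p => (Theta p).right = Multiplicative.ofAdd (ht p)) ?_ ?_ ?_ ?_ p
  · simp
  · intro i; simp [Theta]
  · intro p hp
    rw [map_inv, SemidirectProduct.inv_right, hp, ht_inv, ofAdd_neg]
  · intro p q hp hq
    rw [map_mul, SemidirectProduct.mul_right, hp, hq, ht_mul, ofAdd_add]

/-- action of `K` on `F` -/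
def act (k : K X) (p : FreeGroup X) : FreeGroup X := (Theta p).left k

@[simp] lemma act_one (k : K X) : act k 1 = 1 := by simp [act]

lemma act_mul (k : K X) (p q : FreeGroup X) : act k (p * q) = act k p * act (sh (ht p) k) q := by
  simp [act, Theta_right]

@[simp] lemma act_of (k : K X) (i : X) :
    act k (FreeGroup.of i) = FreeGroup.of (i + k 1) := by
  simp [act, Theta]

lemma act_inv (k : K X) (p : FreeGroup X) : act k p⁻¹ = (act (sh (-ht p) k) p)⁻¹ := by
  have h := act_mul (sh (-ht p) k) p p⁻¹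
  rw [mul_inv_cancel, act_one, sh_sh] at h
  simp only [add_neg_cancel, sh_zero] at h
  exact eq_inv_of_mul_eq_one_right h.symm

@[simp] lemma ht_act (k : K X) (p : FreeGroup X) : ht (act k p) = ht p := by
  revert k
  refine F_induction (C := fun p => ∀ k, ht (act k p) = ht p) ?_ ?_ ?_ ?_ p
  · simp
  · simp
  · intro p hp k
    rw [act_inv, ht_inv, ht_inv, hp]
  · intro p q hp hq k
    rw [act_mul, ht_mul, ht_mul, hp, hq]

lemma act_act (k l : K X) (p : FreeGroup X) : act k (act l p) = act (k + l) p := by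
  revert k l
  refine F_induction (C := fun p => ∀ k l, act k (act l p) = act (k + l) p) ?_ ?_ ?_ ?_ p
  · simp
  · intro i k l
    simp only [act_of, Pi.add_apply]
    congr 1; abel
  · intro p hp k l
    rw [act_inv l, act_inv k, act_inv (k + l), ht_act, hp, sh_add]
  · intro p q hp hq k l
    rw [act_mul l, act_mul k, act_mul (k + l), ht_act, hp, hq, sh_add]

@[simp] lemma act_zero (p : FreeGroup X) : act (0 : K X) p = p := by
  refine F_induction (C := fun p => act (0 : K X) p = p) ?_ ?_ ?_ ?_ p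
  · simp
  · simp
  · intro p hp
    rw [act_inv, sh_zero', hp]
  · intro p q hp hq
    rw [act_mul, sh_zero', hp, hq]

/-- shift action on `K` in multiplicative form, by `-n` -/
def psi (X : Type) [AddCommGroup X] : Multiplicative ℤ →* MulAut (Multiplicative (K X)) where
  toFun n :=
    { toFun := fun u => Multiplicative.ofAdd (sh (-n.toAdd) u.toAdd)
      invFun := fun u => Multiplicative.ofAdd (sh (n.toAdd) u.toAdd)
      left_inv := fun u => by
        apply Multiplicative.toAdd.injective; simp [sh_sh]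
      right_inv := fun u => by
        apply Multiplicative.toAdd.injective; simp [sh_sh]
      map_mul' := fun u v => by
        apply Multiplicative.toAdd.injective; simp [sh_add] }
  map_one' := by
    ext u; apply Multiplicative.toAdd.injective; simp
  map_mul' n m := by
    apply MulEquiv.ext
    intro u
    apply Multiplicative.toAdd.injective
    change sh (-(n * m).toAdd) u.toAdd = sh (-n.toAdd) (sh (-m.toAdd) u.toAdd)
    rw [sh_sh, toAdd_mul, neg_add]

@[simp] lemma psi_apply (n : Multiplicative ℤ) (u : Multiplicative (K X)) :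
    psi X n u = Multiplicative.ofAdd (sh (-n.toAdd) u.toAdd) := rfl

/-- a single letter at height `j` -/
def ee (j : ℤ) (i : X) : K X := fun h => if h = j then i else 0

/-- crossed homomorphism, packaged -/
def Rho : FreeGroup X →* (Multiplicative (K X)) ⋊[psi X] Multiplicative ℤ :=
  FreeGroup.lift fun i => ⟨Multiplicative.ofAdd (ee 1 i), Multiplicative.ofAdd 1⟩

lemma Rho_right (p : FreeGroup X) : (Rho p).right = Multiplicative.ofAdd (ht p) := by
  refine F_induction (C := fun p => (Rho p).right = Multiplicative.ofAdd (ht p)) ?_ ?_ ?_ ?_ p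
  · simp
  · intro i; simp [Rho]
  · intro p hp
    rw [map_inv, SemidirectProduct.inv_right, hp, ht_inv, ofAdd_neg]
  · intro p q hp hq
    rw [map_mul, SemidirectProduct.mul_right, hp, hq, ht_mul, ofAdd_add]

/-- the crossed homomorphism -/
def cc (p : FreeGroup X) : K X := sh (ht p) (Rho p).left.toAdd

@[simp] lemma cc_one : cc (1 : FreeGroup X) = 0 := by simp [cc]

lemma cc_mul (p q : FreeGroup X) : cc (p * q) = sh (ht q) (cc p) + cc q := by
  simp only [cc, map_mul, SemidirectProduct.mul_left, toAdd_mul, Rho_right, psi_apply,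
    toAdd_ofAdd, ht_mul, sh_add, sh_sh]
  congr 2
  · ring
  · ring

@[simp] lemma cc_of (i : X) : cc (FreeGroup.of i) = ee 0 i := by
  funext h
  simp only [cc, Rho, FreeGroup.lift_apply_of, toAdd_ofAdd, ht_of, sh_apply, ee]
  congr 1
  simp

lemma cc_inv (p : FreeGroup X) : cc p⁻¹ = - sh (-ht p) (cc p) := by
  have h := cc_mul p p⁻¹
  rw [mul_inv_cancel, cc_one, ht_inv] at h
  rw [eq_neg_iff_add_eq_zero, add_comm]; exact h.symm

/-- step function -/
def st (h : ℤ) : ℤ := if h ≤ 0 then 1 else 0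

/-- the defect -/
def dd (k : K X) (n : ℤ) : K X := fun h => (st h - st (h + n)) • k (h + n)

lemma dd_add (k : K X) (n m : ℤ) : dd k (n + m) = sh m (dd k n) + dd (sh n k) m := by
  funext h
  simp only [dd, sh_apply, Pi.add_apply]
  have e1 : h + m + n = h + (n + m) := by ring
  rw [e1, ← add_smul]
  congr 1
  ring

lemma dd_zero (k : K X) : dd k 0 = 0 := by
  funext h; simp [dd]

lemma dd_neg (k : K X) (n : ℤ) : dd (-k) n = - dd k n := by
  funext h; simp [dd]

lemma cc_act (k : K X) (p : FreeGroup X) : cc (act k p) = cc p + dd k (ht p) := by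
  revert k
  refine F_induction (C := fun p => ∀ k, cc (act k p) = cc p + dd k (ht p)) ?_ ?_ ?_ ?_ p
  · intro k; simp [dd_zero]
  · intro i k
    funext h
    simp only [act_of, cc_of, ht_of, ee, dd, Pi.add_apply, st]
    by_cases h0 : h = 0
    · subst h0; simp
    · rcases lt_or_gt_of_ne h0 with h1 | h1
      · have h2 : h ≤ 0 := by omega
        have h3 : h + 1 ≤ 0 := by omega
        simp [h0, h2, h3]
      · have h2 : ¬ (h ≤ 0) := by omega
        have h3 : ¬ (h + 1 ≤ 0) := by omega
        simp [h0, h2, h3]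
  · intro p hp k
    rw [act_inv, cc_inv, ht_act, hp, cc_inv, ht_inv, sh_add, neg_add]
    congr 1
    have h := dd_add (sh (-ht p) k) (ht p) (-ht p)
    rw [add_neg_cancel, dd_zero, sh_sh, add_neg_cancel, sh_zero] at h
    exact (eq_neg_of_add_eq_zero_right h.symm).symm
  · intro p q hp hq k
    rw [act_mul, cc_mul, ht_act, hp, hq, cc_mul, ht_mul, dd_add, sh_add]
    abel

/-- action of `K` on `Gam` -/
def ka (k : K X) (x : Gam X) : Gam X :=
  ⟨(act k x.1.1, act k x.1.2), by
    show ht _ = ht _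
    rw [ht_act, ht_act]; exact x.2⟩

@[simp] lemma hg_ka (k : K X) (x : Gam X) : hg (ka k x) = hg x := by simp [hg, ka]

lemma ka_mul (k : K X) (x y : Gam X) : ka k (x * y) = ka k x * ka (sh (hg x) k) y := by
  apply Subtype.ext
  apply Prod.ext
  · simp only [ka, Subgroup.coe_mul, Prod.fst_mul, act_mul, hg]
  · simp only [ka, Subgroup.coe_mul, Prod.snd_mul, act_mul, ← hg_eq]

@[simp] lemma ka_one (k : K X) : ka k 1 = 1 := by
  apply Subtype.ext; apply Prod.ext <;> simp [ka]

@[simp] lemma ka_zero (x : Gam X) : ka (0 : K X) x = x := by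
  apply Subtype.ext; apply Prod.ext <;> simp [ka]

lemma ka_ka (k l : K X) (x : Gam X) : ka k (ka l x) = ka (k + l) x := by
  apply Subtype.ext; apply Prod.ext <;> simp [ka, act_act]

lemma ka_inv (k : K X) (x : Gam X) : ka k x⁻¹ = (ka (sh (-hg x) k) x)⁻¹ := by
  have h := ka_mul (sh (-hg x) k) x x⁻¹
  rw [mul_inv_cancel, ka_one, sh_sh] at h
  simp only [add_neg_cancel, sh_zero] at h
  exact eq_inv_of_mul_eq_one_right h.symm

/-- the invariant crossed homomorphism on `Gam` -/
def kap (x : Gam X) : K X := cc x.1.2 - cc x.1.1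

@[simp] lemma kap_one : kap (1 : Gam X) = 0 := by simp [kap]

lemma kap_mul (x y : Gam X) : kap (x * y) = sh (hg y) (kap x) + kap y := by
  simp only [kap, Subgroup.coe_mul, Prod.fst_mul, Prod.snd_mul, cc_mul, sh_sub, hg_eq]
  simp only [hg]
  abel

lemma kap_ka (k : K X) (x : Gam X) : kap (ka k x) = kap x := by
  simp only [kap, ka, cc_act, hg_eq]
  simp only [hg]
  abel

lemma kap_inv (x : Gam X) : kap x⁻¹ = - sh (-hg x) (kap x) := by
  have h := kap_mul x x⁻¹
  rw [mul_inv_cancel, kap_one, hg_inv] at h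
  exact eq_neg_of_add_eq_zero_right h.symm

/-- The ambient group `G = Gam × K` (a Zappa-Szep product). -/
@[ext] structure GG (X : Type) : Type where
  g : Gam X
  k : K X

namespace GG

instance : Mul (GG X) := ⟨fun a b => ⟨a.g * ka a.k b.g, sh (hg b.g) a.k + b.k⟩⟩
instance : One (GG X) := ⟨⟨1, 0⟩⟩
instance : Inv (GG X) := ⟨fun a => ⟨ka (-a.k) a.g⁻¹, - sh (-hg a.g) a.k⟩⟩

@[simp] lemma mul_g (a b : GG X) : (a * b).g = a.g * ka a.k b.g := rfl
@[simp] lemma mul_k (a b : GG X) : (a * b).k = sh (hg b.g) a.k + b.k := rfl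
@[simp] lemma one_g : (1 : GG X).g = 1 := rfl
@[simp] lemma one_k : (1 : GG X).k = 0 := rfl
lemma inv_g (a : GG X) : (a⁻¹).g = ka (-a.k) a.g⁻¹ := rfl
lemma inv_k (a : GG X) : (a⁻¹).k = - sh (-hg a.g) a.k := rfl

instance : Group (GG X) := Group.ofLeftAxioms
  (by
    intro a b c
    apply GG.ext
    · simp only [mul_g, mul_k, ka_mul, mul_assoc]
      congr 2
      rw [ka_ka, ← ka_ka, ka_ka]
    · simp only [mul_g, mul_k, hg_mul, hg_ka, sh_add, sh_sh, add_assoc]
      congr 2
      rw [add_comm])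
  (by
    intro a
    apply GG.ext
    · simp
    · simp)
  (by
    intro a
    apply GG.ext
    · simp only [mul_g, inv_g, inv_k, one_g]
      have h := ka_mul (-a.k) a.g⁻¹ a.g
      rw [inv_mul_cancel, ka_one, hg_inv, sh_neg] at h
      exact h.symm
    · simp only [mul_k, inv_k, one_k, sh_neg, sh_sh, add_neg_cancel, sh_zero]
      exact neg_add_cancel _)

end GG

/-- the twisted complement -/
def LamG (X : Type) [AddCommGroup X] : Subgroup (GG X) where
  carrier := {a | a.k = kap a.g}
  mul_mem' := by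
    intro a b ha hb
    simp only [Set.mem_ofPred_eq, GG.mul_k, GG.mul_g] at *
    rw [kap_mul, kap_ka, hg_ka, ← ha, ← hb]
  one_mem' := by simp
  inv_mem' := by
    intro a ha
    simp only [Set.mem_ofPred_eq, GG.inv_k, GG.inv_g] at *
    rw [kap_ka, kap_inv, ← ha]

/-- the element of the twisted group over `x` -/
def toLam (x : Gam X) : LamG X := ⟨⟨x, kap x⟩, rfl⟩

@[simp] lemma toLam_g (x : Gam X) : (toLam x).1.g = x := rfl
@[simp] lemma toLam_k (x : Gam X) : (toLam x).1.k = kap x := rfl

lemma toLam_mul (x y : Gam X) : toLam x * toLam y = toLam (x * ka (kap x) y) := by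
  apply Subtype.ext
  apply GG.ext
  · simp
  · simp only [Subgroup.coe_mul, GG.mul_k, toLam_k, toLam_g, kap_mul, kap_ka, hg_ka]

lemma toLam_one : toLam (1 : Gam X) = 1 := by
  apply Subtype.ext
  apply GG.ext
  · simp
  · simp

lemma toLam_inv (x : Gam X) : (toLam x)⁻¹ = toLam (ka (-kap x) x⁻¹) := by
  rw [inv_eq_iff_mul_eq_one, toLam_mul, ka_ka, add_neg_cancel, ka_zero, mul_inv_cancel, toLam_one]

/-- the identity bijection between the two groups -/
def eqv : Gam X ≃ LamG X where
  toFun := toLam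
  invFun a := a.1.g
  left_inv _ := rfl
  right_inv a := by
    apply Subtype.ext
    apply GG.ext
    · rfl
    · exact a.2.symm

@[simp] lemma eqv_apply (x : Gam X) : eqv x = toLam x := rfl

lemma ka_sgen (k : K X) (i j : X) : ka k (sgen i j) = sgen (i + k 1) (j + k 1) := by
  apply Subtype.ext
  apply Prod.ext <;> simp [ka, sgen]

lemma S0_ka {x : Gam X} (k : K X) (hx : x ∈ S0 X) : ka k x ∈ S0 X := by
  obtain ⟨i, j, h | h⟩ := hx
  · exact ⟨i + k 1, j + k 1, Or.inl (by rw [h, ka_sgen])⟩
  · refine ⟨i + (sh (-1) k) 1, j + (sh (-1) k) 1, Or.inr ?_⟩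
    rw [h, ka_inv, hg_sgen, ka_sgen]

lemma S0_ka_iff {x : Gam X} (k : K X) : ka k x ∈ S0 X ↔ x ∈ S0 X := by
  constructor
  · intro h
    have := S0_ka (-k) h
    rwa [ka_ka, neg_add_cancel, ka_zero] at this
  · exact S0_ka k

/-- the generating set of the twisted group -/
def T0 (X : Type) [AddCommGroup X] : Set (LamG X) := toLam '' (S0 X)

lemma T0_finite [Finite X] : (T0 X).Finite := S0_finite.image _

lemma T0_inv {x : LamG X} (hx : x ∈ T0 X) : x⁻¹ ∈ T0 X := by
  obtain ⟨y, hy, rfl⟩ := hx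
  rw [toLam_inv]
  exact ⟨_, S0_ka _ (S0_inv hy), rfl⟩

lemma toLam_mul_gen (x s : Gam X) (hs : s ∈ S0 X) :
    ∃ t ∈ T0 X, toLam (x * s) = toLam x * t := by
  refine ⟨toLam (ka (-kap x) s), ⟨_, S0_ka _ hs, rfl⟩, ?_⟩
  rw [toLam_mul, ka_ka, add_neg_cancel, ka_zero]

lemma transfer (n : ℕ) : ∀ x : Gam X, IsProd (S0 X) n x → IsProd (T0 X) n (toLam x) := by
  induction n with
  | zero =>
    rintro x ⟨l, h1, _, h3⟩
    rw [List.length_eq_zero_iff] at h1
    subst h1
    refine ⟨[], rfl, by simp, ?_⟩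
    rw [← h3]; simp [toLam_one]
  | succ n ih =>
    rintro x ⟨l, h1, h2, h3⟩
    rcases List.eq_nil_or_concat l with h | ⟨l', a, h⟩
    · subst h; simp at h1
    · subst h
      simp only [List.concat_eq_append, List.length_append, List.length_singleton,
        Nat.add_right_cancel_iff] at h1
      have hx : x = l'.prod * a := by rw [← h3]; simp
      obtain ⟨t, ht, h4⟩ := toLam_mul_gen l'.prod a (h2 a (by simp))
      rw [hx, h4]
      apply IsProd.mul_right _ ht
      apply ih
      exact ⟨l', h1, fun b hb => h2 b (by simp [hb]), rfl⟩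

lemma T0_gen : Subgroup.closure (T0 X) = ⊤ := by
  rw [eq_top_iff]
  intro x _
  obtain ⟨n, hn⟩ := exists_isProd (S := S0 X) (fun _ h => S0_inv h)
    (@S0_gen X ⟨(0 : X)⟩) x.1.g
  have h2 := transfer n _ hn
  have h3 : toLam x.1.g = x := eqv.right_inv x
  rw [h3] at h2
  exact IsProd_mem_closure h2

/-- adjacency is the same for both groups -/
lemma adj_iff (x y : Gam X) : x⁻¹ * y ∈ S0 X ↔ (toLam x)⁻¹ * toLam y ∈ T0 X := by
  have h1 : (toLam x)⁻¹ * toLam y = toLam (ka (-kap x) (x⁻¹ * y)) := by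
    rw [inv_mul_eq_iff_eq_mul, toLam_mul, ka_ka, add_neg_cancel, ka_zero, mul_inv_cancel_left]
  rw [h1]
  constructor
  · intro h
    exact ⟨_, S0_ka _ h, rfl⟩
  · rintro ⟨z, hz, h⟩
    have h2 : z = ka (-kap x) (x⁻¹ * y) := eqv.injective h
    rw [h2, S0_ka_iff] at hz
    exact hz

/-! ### The finite subgroups of the twisted group -/

/-- the letter `b` -/
def bb : FreeGroup X := FreeGroup.of 0

@[simp] lemma ht_bb_pow (n : ℕ) : ht ((bb : FreeGroup X) ^ n) = n := by
  induction n with
  | zero => simp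
  | succ n ih => rw [pow_succ, ht_mul, ih]; simp [bb]

@[simp] lemma cc_bb_pow (n : ℕ) : cc ((bb : FreeGroup X) ^ n) = 0 := by
  induction n with
  | zero => simp
  | succ n ih =>
    rw [pow_succ, cc_mul, ih]
    simp only [bb, cc_of, sh_zero', zero_add]
    funext h; simp [ee]

lemma act_bb_succ (k : K X) (n : ℕ) :
    act k (bb ^ (n + 1)) = act k (bb ^ n) * FreeGroup.of (k (n + 1)) := by
  rw [pow_succ, act_mul, ht_bb_pow]
  simp only [bb, act_of, sh_apply, zero_add]
  rw [add_comm]

lemma act_bb_congr (k l : K X) (n : ℕ) (h : ∀ j : ℤ, 0 < j → j ≤ n → k j = l j) :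
    act k (bb ^ n) = act l (bb ^ n) := by
  induction n with
  | zero => simp
  | succ n ih =>
    rw [act_bb_succ, act_bb_succ, ih (fun j h1 h2 => h j h1 (by push_cast; omega)),
      h (n + 1) (by omega) (by push_cast; omega)]

/-- elements of the finite subgroups -/
def mm (n : ℕ) (k : K X) : Gam X := ⟨(bb ^ n * (act k (bb ^ n))⁻¹, 1), by
  show ht _ = ht _
  simp⟩

@[simp] lemma hg_mm (n : ℕ) (k : K X) : hg (mm n k) = 0 := by simp [hg, mm]

/-- restriction to heights in `(0, n]` -/
def cut (n : ℕ) (k : K X) : K X := fun h => if 0 < h ∧ h ≤ n then k h else 0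

lemma kap_mm (n : ℕ) (k : K X) : kap (mm n k) = cut n k := by
  have h1 : kap (mm n k) = cc (1 : FreeGroup X) - cc (bb ^ n * (act k (bb ^ n))⁻¹) := rfl
  rw [h1, cc_mul, cc_one, zero_sub, cc_bb_pow, sh_zero', zero_add, cc_inv, ht_act, cc_act,
    cc_bb_pow, zero_add, ht_bb_pow, neg_neg]
  funext h
  simp only [sh_apply, dd, cut, st]
  have e1 : h + -(n : ℤ) + n = h := by ring
  rw [e1]
  by_cases c1 : 0 < h ∧ h ≤ n
  · have c2 : h + -(n : ℤ) ≤ 0 := by omega
    have c3 : ¬ (h ≤ 0) := by omega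
    simp [c1, c2, c3]
  · rw [if_neg c1]
    by_cases c2 : h ≤ 0
    · have c3 : h + -(n : ℤ) ≤ 0 := by omega
      simp [c2, c3]
    · have c3 : ¬ (h + -(n : ℤ) ≤ 0) := by omega
      simp [c2, c3]

lemma mm_mul (n : ℕ) (k l : K X) :
    toLam (mm n k) * toLam (mm n l) = toLam (mm n (k + l)) := by
  rw [toLam_mul]
  congr 1
  apply Subtype.ext
  apply Prod.ext
  · show bb ^ n * (act k (bb ^ n))⁻¹ * act (kap (mm n k)) (bb ^ n * (act l (bb ^ n))⁻¹)
      = bb ^ n * (act (k + l) (bb ^ n))⁻¹
    rw [act_mul, act_inv, ht_act, sh_sh, ht_bb_pow, act_act, kap_mm]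
    have e0 : -(n : ℤ) + n = 0 := by ring
    rw [e0, sh_zero]
    have e1 : act (cut n k) (bb ^ n) = act k (bb ^ n) := by
      apply act_bb_congr
      intro j h1 h2
      simp [cut, h1, h2]
    have e2 : act (cut n k + l) (bb ^ n) = act (k + l) (bb ^ n) := by
      apply act_bb_congr
      intro j h1 h2
      simp [cut, h1, h2]
    rw [e1, e2]
    group
  · show (1 : FreeGroup X) * act (kap (mm n k)) 1 = 1
    simp

lemma mm_zero (n : ℕ) : mm n (0 : K X) = 1 := by
  apply Subtype.ext
  apply Prod.ext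
  · show bb ^ n * (act 0 (bb ^ n))⁻¹ = 1
    simp
  · rfl

/-- auxiliary elements -/
def uu (n : ℕ) (k : K X) : Gam X := ⟨(act k (bb ^ n), bb ^ n), by
  show ht _ = ht _
  simp⟩

lemma uu_succ (n : ℕ) (k : K X) : uu (n + 1) k = uu n k * sgen (k (n + 1)) 0 := by
  apply Subtype.ext
  apply Prod.ext
  · show act k (bb ^ (n + 1)) = _
    rw [act_bb_succ]; rfl
  · show bb ^ (n + 1) = bb ^ n * FreeGroup.of 0
    rw [pow_succ]; rfl

lemma uu_isProd (n : ℕ) (k : K X) : IsProd (S0 X) n (uu n k) := by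
  induction n with
  | zero =>
    refine ⟨[], rfl, by simp, ?_⟩
    apply Subtype.ext
    apply Prod.ext <;> simp [uu]
  | succ n ih =>
    rw [uu_succ]
    exact ih.mul_right ⟨_, _, Or.inl rfl⟩

lemma mm_isProd (n : ℕ) (k : K X) : IsProd (S0 X) (n + n) (mm n k) := by
  have h : mm n k = uu n 0 * (uu n k)⁻¹ := by
    apply Subtype.ext
    apply Prod.ext
    · show bb ^ n * (act k (bb ^ n))⁻¹ = act 0 (bb ^ n) * (act k (bb ^ n))⁻¹
      rw [act_zero]
    · show (1 : FreeGroup X) = bb ^ n * (bb ^ n)⁻¹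
      rw [mul_inv_cancel]
  rw [h]
  exact (uu_isProd n 0).mul ((uu_isProd n k).inv fun _ h => S0_inv h)

/-- extension of a finite vector -/
def extv (n : ℕ) (v : Fin n → X) : K X := fun h =>
  if hh : 0 < h ∧ h ≤ n then v ⟨(h - 1).toNat, by omega⟩ else 0

lemma extv_add (n : ℕ) (v w : Fin n → X) : extv n (v + w) = extv n v + extv n w := by
  funext h
  simp only [extv, Pi.add_apply]
  split_ifs <;> simp

lemma extv_zero (n : ℕ) : extv n (0 : Fin n → X) = 0 := by
  funext h
  simp only [extv, Pi.zero_apply]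
  split_ifs <;> simp

lemma cut_extv (n : ℕ) (v : Fin n → X) : cut n (extv n v) = extv n v := by
  funext h
  simp only [cut, extv]
  split_ifs <;> rfl

lemma extv_inj (n : ℕ) : Function.Injective (extv (X := X) n) := by
  intro v w h
  funext i
  have h1 := congrFun h ((i : ℕ) + 1 : ℤ)
  have h2 : (0 : ℤ) < (i : ℕ) + 1 ∧ ((i : ℕ) : ℤ) + 1 ≤ n := by
    have := i.2
    omega
  simp only [extv, h2, and_self, dite_true] at h1
  have e : (((i : ℕ) : ℤ) + 1 - 1).toNat = i := by simp
  simpa [e] using h1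

/-- the embedding of `X ^ n` -/
def emb (n : ℕ) : Multiplicative (Fin n → X) →* LamG X where
  toFun v := toLam (mm n (extv n v.toAdd))
  map_one' := by
    rw [toAdd_one, extv_zero, mm_zero, toLam_one]
  map_mul' v w := by
    rw [toAdd_mul, extv_add, mm_mul]

lemma emb_injective (n : ℕ) : Function.Injective (emb (X := X) n) := by
  intro v w h
  have h1 : kap (mm n (extv n v.toAdd)) = kap (mm n (extv n w.toAdd)) := by
    have := congrArg (fun a : LamG X => a.1.k) h
    simpa [emb] using this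
  rw [kap_mm, kap_mm, cut_extv, cut_extv] at h1
  exact Multiplicative.toAdd.injective (extv_inj n h1)

lemma emb_isProd (n : ℕ) (v : Multiplicative (Fin n → X)) : IsProd (T0 X) (n + n) (emb n v) :=
  transfer _ _ (mm_isProd n _)

end twist

end Pool.Agent.KS6_1.RD
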